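import Pool.Agent.Q83.Nrm.Four

/-!
Second moments of the exponential sums and almost everywhere convergence.
-/

set_option autoImplicit false
open MeasureTheory Filter Topology Set
open scoped ENNReal NNReal Real
open Pool.Agent.H493R3 (ee ee_norm ee_add ee_neg ee_int)

namespace Q83.Nrm

lemma geo_down (b : ℝ) (hb : 2 ≤ b) (a : ℝ) (ha : 0 < a) (s : Finset ℕ) (hs : ∀ m ∈ s, a ≤ b ^ m) :
    ∑ m ∈ s, a / b ^ m ≤ 2 := by
  rcases s.eq_empty_or_nonempty with rfl | hne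
  · simp
  set m0 := s.min' hne with hm0
  have hb0 : 0 < b := by linarith
  have h1 : ∀ m ∈ s, a / b ^ m ≤ (1 / 2 : ℝ) ^ (m - m0) := by
    intro m hm
    have h2 : m0 ≤ m := s.min'_le m hm
    have h3 := hs m0 (s.min'_mem hne)
    rw [div_le_iff₀ (by positivity)]
    have h4 : b ^ m = b ^ (m - m0) * b ^ m0 := by
      rw [← pow_add, Nat.sub_add_cancel h2]
    rw [h4, ← mul_assoc, ← mul_pow]
    have h5 : (1 : ℝ) ≤ (1 / 2 * b) ^ (m - m0) := one_le_pow₀ (by linarith)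
    nlinarith [pow_pos hb0 m0]
  refine (Finset.sum_le_sum h1).trans ?_
  have hinj : Set.InjOn (fun m => m - m0) (s : Set ℕ) := by
    intro x hx y hy hxy
    have h2 : m0 ≤ x := s.min'_le x hx
    have h3 : m0 ≤ y := s.min'_le y hy
    simp only at hxy
    omega
  rw [← Finset.sum_image (f := fun t : ℕ => (1 / 2 : ℝ) ^ t) hinj]
  refine (summable_geometric_two.sum_le_tsum _ (fun i _ => by positivity)).trans ?_
  rw [tsum_geometric_two]

lemma geo_up (b : ℝ) (hb : 2 ≤ b) (a : ℝ) (ha : 0 < a) (s : Finset ℕ) (hs : ∀ m ∈ s, b ^ m ≤ a) :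
    ∑ m ∈ s, b ^ m / a ≤ 2 := by
  rcases s.eq_empty_or_nonempty with rfl | hne
  · simp
  set m0 := s.max' hne with hm0
  have hb0 : 0 < b := by linarith
  have h1 : ∀ m ∈ s, b ^ m / a ≤ (1 / 2 : ℝ) ^ (m0 - m) := by
    intro m hm
    have h2 : m ≤ m0 := s.le_max' m hm
    have h3 := hs m0 (s.max'_mem hne)
    rw [div_le_iff₀ ha]
    have h4 : b ^ m0 = b ^ (m0 - m) * b ^ m := by
      rw [← pow_add, Nat.sub_add_cancel h2]
    have h5 : (1 : ℝ) ≤ (1 / 2 * b) ^ (m0 - m) := one_le_pow₀ (by linarith)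
    calc b ^ m = 1 * b ^ m := (one_mul _).symm
      _ ≤ (1 / 2 * b) ^ (m0 - m) * b ^ m := by gcongr
      _ = (1 / 2) ^ (m0 - m) * b ^ m0 := by rw [mul_pow, h4]; ring
      _ ≤ (1 / 2) ^ (m0 - m) * a := by gcongr
  refine (Finset.sum_le_sum h1).trans ?_
  have hinj : Set.InjOn (fun m => m0 - m) (s : Set ℕ) := by
    intro x hx y hy hxy
    have h2 : x ≤ m0 := s.le_max' x hx
    have h3 : y ≤ m0 := s.le_max' y hy
    simp only at hxy
    omega
  rw [← Finset.sum_image (f := fun t : ℕ => (1 / 2 : ℝ) ^ t) hinj]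
  refine (summable_geometric_two.sum_le_tsum _ (fun i _ => by positivity)).trans ?_
  rw [tsum_geometric_two]

section
variable {n : ℕ → ℕ} (hn : StrictMono n) (h0 : n 0 = 0) (hsq : ∀ k, k ^ 2 ≤ n k)
  (b : ℕ) (hb : 2 ≤ b)

/-- The index of the window of `m`. -/
noncomputable def kap (n : ℕ → ℕ) (b m : ℕ) : ℕ := by
  classical exact Nat.findGreatest (fun k => 2 ^ (n k) ≤ b ^ m) (b ^ m)

include h0 hb in
lemma kap_spec (m : ℕ) : 2 ^ (n (kap n b m)) ≤ b ^ m := by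
  classical
  unfold kap
  apply Nat.findGreatest_spec (P := fun k => 2 ^ (n k) ≤ b ^ m) (m := 0) (Nat.zero_le _)
  rw [h0, pow_zero]
  exact Nat.one_le_pow _ _ (by omega)

include hn in
lemma kap_lt (m : ℕ) : b ^ m < 2 ^ (n (kap n b m + 1)) := by
  classical
  by_contra hc
  push Not at hc
  have h1 : kap n b m + 1 ≤ b ^ m := by
    calc kap n b m + 1 ≤ n (kap n b m + 1) := hn.id_le _
      _ ≤ 2 ^ (n (kap n b m + 1)) := Nat.lt_two_pow_self.le
      _ ≤ b ^ m := hc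
  have h2 : kap n b m + 1 ≤ kap n b m := by
    conv_rhs => unfold kap
    exact Nat.le_findGreatest h1 hc
  omega

include h0 hsq hb in
lemma kap_le (m N : ℕ) (hm : m < N) : kap n b m ≤ Nat.sqrt (b * N) := by
  rw [Nat.le_sqrt]
  have h1 := kap_spec h0 b hb m
  have h2 : b ^ m ≤ 2 ^ (b * m) := by
    rw [pow_mul]
    exact Nat.pow_le_pow_left Nat.lt_two_pow_self.le m
  have h3 := (Nat.pow_le_pow_iff_right (by norm_num : 1 < 2)).1 (h1.trans h2)
  have h4 := hsq (kap n b m)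
  nlinarith

/-- The weights. -/
noncomputable def ww (n : ℕ → ℕ) (b m : ℕ) : ℝ :=
  (2 : ℝ) ^ (n (kap n b m)) / (b : ℝ) ^ m + (b : ℝ) ^ m / 2 ^ (n (kap n b m + 1))

lemma ww_nonneg (n : ℕ → ℕ) (b m : ℕ) : 0 ≤ ww n b m := by
  unfold ww
  positivity

include hn h0 hsq hb in
lemma sum_ww (N : ℕ) : ∑ m ∈ Finset.range N, ww n b m ≤ 4 * (Nat.sqrt (b * N) + 1) := by
  have h1 := Finset.sum_fiberwise_of_maps_to (s := Finset.range N)
    (t := Finset.range (Nat.sqrt (b * N) + 1)) (g := kap n b) (f := ww n b) (fun m hm => by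
      rw [Finset.mem_range, Nat.lt_succ_iff]
      exact kap_le h0 hsq b hb m N (Finset.mem_range.1 hm))
  rw [← h1]
  have hb2 : (2 : ℝ) ≤ b := by exact_mod_cast hb
  have h2 : ∀ k ∈ Finset.range (Nat.sqrt (b * N) + 1),
      ∑ m ∈ Finset.range N with kap n b m = k, ww n b m ≤ 4 := by
    intro k _
    have h3 : ∀ m ∈ (Finset.range N).filter (fun m => kap n b m = k), ww n b m =
        (2 : ℝ) ^ (n k) / (b : ℝ) ^ m + (b : ℝ) ^ m / 2 ^ (n (k + 1)) := by
      intro m hm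
      unfold ww
      rw [(Finset.mem_filter.1 hm).2]
    rw [Finset.sum_congr rfl h3, Finset.sum_add_distrib]
    have h4 := geo_down b hb2 (2 ^ (n k)) (by positivity)
      ((Finset.range N).filter (fun m => kap n b m = k)) (fun m hm => by
        have := kap_spec h0 b hb m
        rw [(Finset.mem_filter.1 hm).2] at this
        exact_mod_cast this)
    have h5 := geo_up b hb2 (2 ^ (n (k + 1))) (by positivity)
      ((Finset.range N).filter (fun m => kap n b m = k)) (fun m hm => by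
        have := kap_lt hn b m
        rw [(Finset.mem_filter.1 hm).2] at this
        exact_mod_cast this.le)
    linarith
  refine (Finset.sum_le_sum h2).trans ?_
  rw [Finset.sum_const, Finset.card_range, nsmul_eq_mul]
  push_cast
  linarith

include hn in
lemma hat_bound (h : ℕ) (hh : 1 ≤ h) (i j : ℕ) (hb2 : 2 ≤ b) (hij : i ≠ j) :
    ‖∫ x, ee ((h * ((b : ℝ) ^ i - (b : ℝ) ^ j)) * x) ∂(mu n)‖ ≤
      7 * h * (ww n b i + ww n b j) := by
  have hb' : (2 : ℝ) ≤ b := by exact_mod_cast hb2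
  have hh' : (1 : ℝ) ≤ h := by exact_mod_cast hh
  -- the larger index
  obtain ⟨m, l, hlm, habs, hww⟩ : ∃ m l : ℕ, l < m ∧
      |(h * ((b : ℝ) ^ i - (b : ℝ) ^ j))| = h * ((b : ℝ) ^ m - (b : ℝ) ^ l) ∧
      ww n b m ≤ ww n b i + ww n b j := by
    rcases lt_or_gt_of_ne hij with h1 | h1
    · refine ⟨j, i, h1, ?_, by linarith [ww_nonneg n b i]⟩
      have : (b : ℝ) ^ i ≤ (b : ℝ) ^ j := pow_le_pow_right₀ (by linarith) h1.le
      rw [abs_mul, abs_of_nonneg (by linarith : (0 : ℝ) ≤ h), abs_of_nonpos (by linarith)]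
      ring
    · refine ⟨i, j, h1, ?_, by linarith [ww_nonneg n b j]⟩
      have : (b : ℝ) ^ j ≤ (b : ℝ) ^ i := pow_le_pow_right₀ (by linarith) h1.le
      rw [abs_mul, abs_of_nonneg (by linarith : (0 : ℝ) ≤ h), abs_of_nonneg (by linarith)]
  have hbm : (0 : ℝ) < (b : ℝ) ^ m := by positivity
  have h2 : (b : ℝ) ^ l ≤ (b : ℝ) ^ m / 2 := by
    have h3 : (b : ℝ) ^ (l + 1) ≤ (b : ℝ) ^ m := pow_le_pow_right₀ (by linarith) hlm
    rw [pow_succ] at h3
    have : (b : ℝ) ^ l * 2 ≤ (b : ℝ) ^ l * b := by gcongr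
    linarith
  set ξ : ℝ := h * ((b : ℝ) ^ i - (b : ℝ) ^ j) with hξ
  have h4 : (b : ℝ) ^ m / 2 ≤ |ξ| := by
    rw [habs]
    calc (b : ℝ) ^ m / 2 = 1 * ((b : ℝ) ^ m / 2) := by ring
      _ ≤ h * ((b : ℝ) ^ m - (b : ℝ) ^ l) := by
        gcongr
        linarith
  have h5 : |ξ| ≤ h * (b : ℝ) ^ m := by
    rw [habs]
    gcongr
    have : (0 : ℝ) < (b : ℝ) ^ l := by positivity
    linarith
  have hξ0 : ξ ≠ 0 := by
    intro h6
    rw [h6, abs_zero] at h4
    linarith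
  refine (fourier_bound hn (kap n b m) ξ hξ0).trans (le_trans ?_
    (mul_le_mul_of_nonneg_left hww (by positivity)))
  have hπ := Real.pi_gt_three
  have hπ2 := Real.pi_lt_d2
  unfold ww
  rw [mul_add]
  apply add_le_add
  · calc (2 : ℝ) ^ (n (kap n b m) + 1) / (π * |ξ|)
        ≤ (2 : ℝ) ^ (n (kap n b m) + 1) / (1 * ((b : ℝ) ^ m / 2)) := by
          gcongr
          linarith
      _ = 4 * 1 * (2 ^ (n (kap n b m)) / (b : ℝ) ^ m) := by
          rw [pow_succ]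
          field_simp
          norm_num
      _ ≤ 7 * h * (2 ^ (n (kap n b m)) / (b : ℝ) ^ m) := by
          gcongr
          norm_num
  · calc 2 * π * |ξ| / 2 ^ (n (kap n b m + 1)) ≤ 2 * 3.15 * (h * (b : ℝ) ^ m) / 2 ^ (n (kap n b m + 1)) := by
          gcongr
      _ = (2 * 3.15 * h) * ((b : ℝ) ^ m / 2 ^ (n (kap n b m + 1))) := by ring
      _ ≤ 7 * h * ((b : ℝ) ^ m / 2 ^ (n (kap n b m + 1))) := by
          gcongr
          norm_num

/-- The exponential sums. -/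
noncomputable def SS (b h N : ℕ) (x : ℝ) : ℂ := ∑ j ∈ Finset.range N, ee (h * (x * (b : ℝ) ^ j))

lemma continuous_SS (b h N : ℕ) : Continuous (SS b h N) := by
  unfold SS
  apply continuous_finsetSum
  intro j _
  exact continuous_ee.comp (by fun_prop)

include hn h0 hsq hb in
lemma second_moment (h : ℕ) (hh : 1 ≤ h) (N : ℕ) :
    ∫ x, ‖SS b h N x‖ ^ 2 ∂(mu n) ≤ N * (1 + 56 * h * (Nat.sqrt (b * N) + 1)) := by
  have hprob := isProb hn
  have h1 : ∀ x, ((‖SS b h N x‖ ^ 2 : ℝ) : ℂ) = ∑ i ∈ Finset.range N, ∑ j ∈ Finset.range N,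
      ee ((h * ((b : ℝ) ^ i - (b : ℝ) ^ j)) * x) := by
    intro x
    have h2 : ((‖SS b h N x‖ ^ 2 : ℝ) : ℂ) = SS b h N x * (starRingEnd ℂ) (SS b h N x) := by
      rw [Complex.mul_conj, Complex.normSq_eq_norm_sq]
    rw [h2]
    unfold SS
    rw [map_sum, Finset.sum_mul_sum]
    apply Finset.sum_congr rfl
    intro i _
    apply Finset.sum_congr rfl
    intro j _
    rw [← ee_neg, ← ee_add]
    congr 1
    ring
  have hI : ∀ ξ : ℝ, Integrable (fun x => ee (ξ * x)) (mu n) := fun ξ =>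
    integrable_ee _ ξ id measurable_id
  have h3 : ((∫ x, ‖SS b h N x‖ ^ 2 ∂(mu n) : ℝ) : ℂ) = ∑ i ∈ Finset.range N,
      ∑ j ∈ Finset.range N, ∫ x, ee ((h * ((b : ℝ) ^ i - (b : ℝ) ^ j)) * x) ∂(mu n) := by
    rw [← integral_complex_ofReal]
    simp only [h1]
    rw [integral_finsetSum _ (fun i _ => integrable_finsetSum _ fun j _ => hI _)]
    apply Finset.sum_congr rfl
    intro i _
    rw [integral_finsetSum _ (fun j _ => hI _)]
  have h4 : ∫ x, ‖SS b h N x‖ ^ 2 ∂(mu n) ≤ ‖((∫ x, ‖SS b h N x‖ ^ 2 ∂(mu n) : ℝ) : ℂ)‖ := by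
    rw [Complex.norm_real]
    exact le_abs_self _
  refine h4.trans ?_
  rw [h3]
  have h5 : ∀ i j : ℕ, ‖∫ x, ee ((h * ((b : ℝ) ^ i - (b : ℝ) ^ j)) * x) ∂(mu n)‖ ≤
      (if i = j then 1 else 0) + 7 * h * (ww n b i + ww n b j) := by
    intro i j
    by_cases hij : i = j
    · rw [if_pos hij]
      have h6 := norm_integral_le_of_norm_le_const (μ := mu n)
        (f := fun x => ee ((h * ((b : ℝ) ^ i - (b : ℝ) ^ j)) * x)) (C := 1)
        (ae_of_all _ fun x => (ee_norm _).le)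
      have h7 : (mu n).real univ = 1 := by simp
      rw [h7, mul_one] at h6
      have h8 := ww_nonneg n b i
      have h9 := ww_nonneg n b j
      have h10 : (0 : ℝ) ≤ 7 * h * (ww n b i + ww n b j) := by positivity
      linarith
    · rw [if_neg hij, zero_add]
      exact hat_bound hn b h hh i j hb hij
  refine (norm_sum_le _ _).trans ((Finset.sum_le_sum fun i _ => (norm_sum_le _ _).trans
    (Finset.sum_le_sum fun j _ => h5 i j)).trans ?_)
  have h6 : ∑ i ∈ Finset.range N, ∑ j ∈ Finset.range N,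
      ((if i = j then (1 : ℝ) else 0) + 7 * h * (ww n b i + ww n b j)) =
      N + 14 * h * N * ∑ m ∈ Finset.range N, ww n b m := by
    have h7 : ∀ i ∈ Finset.range N, ∑ j ∈ Finset.range N,
        ((if i = j then (1 : ℝ) else 0) + 7 * h * (ww n b i + ww n b j)) =
        1 + 7 * h * (N * ww n b i + ∑ m ∈ Finset.range N, ww n b m) := by
      intro i hi
      rw [Finset.sum_add_distrib, Finset.sum_ite_eq, if_pos hi, ← Finset.mul_sum,
        Finset.sum_add_distrib, Finset.sum_const, Finset.card_range, nsmul_eq_mul]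
    rw [Finset.sum_congr rfl h7, Finset.sum_add_distrib, ← Finset.mul_sum, Finset.sum_add_distrib,
      ← Finset.mul_sum, Finset.sum_const, Finset.sum_const, Finset.card_range, nsmul_eq_mul,
      nsmul_eq_mul]
    ring
  rw [h6]
  have h7 := sum_ww hn h0 hsq b hb N
  calc (N : ℝ) + 14 * h * N * ∑ m ∈ Finset.range N, ww n b m
      ≤ N + 14 * h * N * (4 * (Nat.sqrt (b * N) + 1)) := by gcongr
    _ = _ := by ring

end

/-- Almost everywhere convergence along all lengths. -/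
theorem ae_tendsto (μ : Measure ℝ) (S : ℕ → ℝ → ℂ)
    (hS : ∀ N, Continuous (S N)) (hstep : ∀ N M x, N ≤ M → ‖S M x‖ ≤ ‖S N x‖ + (M - N : ℝ))
    (A : ℝ) (hA : 0 ≤ A) (hI : ∀ N, Integrable (fun x => ‖S N x‖ ^ 2) μ)
    (hmom : ∀ N : ℕ, ∫ x, ‖S N x‖ ^ 2 ∂μ ≤ A * N * √N) :
    ∀ᵐ x ∂μ, Tendsto (fun N : ℕ => ‖S N x‖ / N) atTop (𝓝 0) := by
  set g : ℕ → ℝ → ℝ≥0∞ := fun j x => ENNReal.ofReal (‖S (j ^ 4) x‖ ^ 2 / (j : ℝ) ^ 8) with hg
  have hgm : ∀ j, Measurable (g j) := fun j =>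
    ((((hS (j ^ 4)).norm.pow 2).measurable.div_const _)).ennreal_ofReal
  have h1 : ∀ j, ∫⁻ x, g j x ∂μ ≤ ENNReal.ofReal (A * (1 / (j : ℝ) ^ 2)) := by
    intro j
    rw [hg]
    simp only
    rw [← ofReal_integral_eq_lintegral_ofReal ((hI (j ^ 4)).div_const _)
      (ae_of_all _ fun x => by positivity)]
    apply ENNReal.ofReal_le_ofReal
    rw [integral_div]
    rcases Nat.eq_zero_or_pos j with rfl | hj
    · simp
    · have hj' : (0 : ℝ) < j := by exact_mod_cast hj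
      rw [div_le_iff₀ (by positivity)]
      refine (hmom (j ^ 4)).trans (le_of_eq ?_)
      have h2 : √((j ^ 4 : ℕ) : ℝ) = (j : ℝ) ^ 2 := by
        push_cast
        rw [show (j : ℝ) ^ 4 = ((j : ℝ) ^ 2) ^ 2 by ring, Real.sqrt_sq (by positivity)]
      rw [h2]
      push_cast
      field_simp
  have h2 : ∫⁻ x, ∑' j, g j x ∂μ ≠ ⊤ := by
    rw [lintegral_tsum fun j => (hgm j).aemeasurable]
    refine ne_top_of_le_ne_top ?_ (ENNReal.tsum_le_tsum h1)
    rw [← ENNReal.ofReal_tsum_of_nonneg (fun j => by positivity)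
      ((Real.summable_one_div_nat_pow.2 (by norm_num)).mul_left A)]
    exact ENNReal.ofReal_ne_top
  filter_upwards [ae_lt_top (Measurable.ennreal_tsum hgm) h2] with x hx
  have h3 := ENNReal.tendsto_atTop_zero_of_tsum_ne_top hx.ne
  have h4 : Tendsto (fun j : ℕ => ‖S (j ^ 4) x‖ / (j : ℝ) ^ 4) atTop (𝓝 0) := by
    have h5 := (ENNReal.tendsto_toReal ENNReal.zero_ne_top).comp h3
    rw [ENNReal.toReal_zero] at h5
    have h6 : Tendsto (fun j : ℕ => √(‖S (j ^ 4) x‖ ^ 2 / (j : ℝ) ^ 8)) atTop (𝓝 0) := by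
      have h7 := (Real.continuous_sqrt.tendsto 0).comp h5
      rw [Real.sqrt_zero] at h7
      refine h7.congr fun j => ?_
      simp only [Function.comp, hg]
      rw [ENNReal.toReal_ofReal (by positivity)]
    refine h6.congr fun j => ?_
    rw [Real.sqrt_div (by positivity), Real.sqrt_sq (norm_nonneg _),
      show (j : ℝ) ^ 8 = ((j : ℝ) ^ 4) ^ 2 by ring, Real.sqrt_sq (by positivity)]
  -- interpolation
  set r : ℕ → ℕ := fun N => Nat.sqrt (Nat.sqrt N) with hr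
  have hr1 : ∀ N, r N ^ 4 ≤ N := by
    intro N
    have h5 : r N ^ 2 ≤ Nat.sqrt N := Nat.sqrt_le' _
    have h6 : Nat.sqrt N ^ 2 ≤ N := Nat.sqrt_le' _
    calc r N ^ 4 = (r N ^ 2) ^ 2 := by ring
      _ ≤ Nat.sqrt N ^ 2 := Nat.pow_le_pow_left h5 2
      _ ≤ N := h6
  have hr2 : ∀ N, N ≤ (r N + 1) ^ 4 := by
    intro N
    have h5 : Nat.sqrt N < (r N + 1) ^ 2 := Nat.lt_succ_sqrt' _
    have h6 : N < (Nat.sqrt N + 1) ^ 2 := Nat.lt_succ_sqrt' _
    calc N ≤ (Nat.sqrt N + 1) ^ 2 := h6.le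
      _ ≤ ((r N + 1) ^ 2) ^ 2 := Nat.pow_le_pow_left h5 2
      _ = (r N + 1) ^ 4 := by ring
  have hr3 : Tendsto r atTop atTop := by
    rw [tendsto_atTop]
    intro C
    filter_upwards [eventually_ge_atTop (C ^ 4)] with N hN
    rw [hr]
    simp only
    rw [Nat.le_sqrt', Nat.le_sqrt']
    calc (C ^ 2) ^ 2 = C ^ 4 := by ring
      _ ≤ N := hN
  have h5 : Tendsto (fun j : ℕ => (1 + 1 / (j : ℝ)) ^ 4 - 1) atTop (𝓝 0) := by
    have h6 : Tendsto (fun j : ℕ => 1 / (j : ℝ)) atTop (𝓝 0) := tendsto_one_div_atTop_nhds_zero_nat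
    have h7 := ((h6.const_add 1).pow 4).sub_const 1
    simpa using h7
  have h6 := (h4.add h5).comp hr3
  rw [add_zero] at h6
  refine squeeze_zero' (Eventually.of_forall fun N => by positivity) ?_ h6
  filter_upwards [eventually_ge_atTop 1, hr3.eventually_ge_atTop 1] with N hN hrN
  have hrN' : (1 : ℝ) ≤ r N := by exact_mod_cast hrN
  have hrN4 : (0 : ℝ) < (r N : ℝ) ^ 4 := by positivity
  have h7 := hstep (r N ^ 4) N x (hr1 N)
  have h8 : ((r N : ℝ)) ^ 4 ≤ N := by exact_mod_cast hr1 N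
  have h9 : (N : ℝ) ≤ ((r N : ℝ) + 1) ^ 4 := by exact_mod_cast hr2 N
  simp only [Function.comp]
  calc ‖S N x‖ / N ≤ ‖S N x‖ / (r N : ℝ) ^ 4 := by gcongr
    _ ≤ (‖S (r N ^ 4) x‖ + (((r N : ℝ) + 1) ^ 4 - (r N : ℝ) ^ 4)) / (r N : ℝ) ^ 4 := by
      gcongr
      push_cast at h7
      linarith
    _ = ‖S (r N ^ 4) x‖ / (r N : ℝ) ^ 4 + ((1 + 1 / (r N : ℝ)) ^ 4 - 1) := by
      field_simp

end Q83.Nrm
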