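import Pool.Agent.Q83.Nrm.Frost
import Pool.Agent.Q83.Nrm.Ae
import Pool.Agent.Y249.SU.Bump
import Pool.Agent.Y249.SU.Raj

/-!
Sets of uniqueness with many absolutely normal points.
-/

set_option autoImplicit false
open MeasureTheory Filter Topology Set
open scoped ENNReal NNReal Real
open Pool.Agent.H493R3 (ee ee_norm ee_add ee_neg ee_int)

namespace Q83.Nrm

/-- The positions from lower bounds. -/
def seq (f : ℕ → ℕ) : ℕ → ℕ
  | 0 => 0
  | k + 1 => max (seq f k + 1) (max ((k + 1) ^ 2) (f (k + 1)))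

lemma seq_strictMono (f : ℕ → ℕ) : StrictMono (seq f) :=
  strictMono_nat_of_lt_succ fun k => by
    rw [seq]
    exact lt_of_lt_of_le (Nat.lt_succ_self _) (le_max_left _ _)

lemma seq_sq (f : ℕ → ℕ) (k : ℕ) : k ^ 2 ≤ seq f k := by
  cases k with
  | zero => simp
  | succ k =>
    rw [seq]
    exact (le_max_left _ _).trans (le_max_right _ _)

lemma seq_ge (f : ℕ → ℕ) (k : ℕ) (hk : 1 ≤ k) : f k ≤ seq f k := by
  cases k with
  | zero => omega
  | succ k =>
    rw [seq]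
    exact (le_max_right _ _).trans (le_max_right _ _)

lemma exists_seq (φ : ℝ → ℝ) (hpos : ∀ r : ℝ, 0 < r → 0 < φ r)
    (hlim : Tendsto (fun r : ℝ => r / φ r) (𝓝[>] (0 : ℝ)) (𝓝 0)) :
    ∃ n : ℕ → ℕ, StrictMono n ∧ n 0 = 0 ∧ (∀ k, k ^ 2 ≤ n k) ∧
      ∀ k, 1 ≤ k → ∀ r : ℝ, 0 < r → r ≤ 1 / 2 ^ (n k) → 2 ^ (k + 1) * r ≤ φ r := by
  have h1 : ∀ k : ℕ, ∃ N : ℕ, ∀ r : ℝ, 0 < r → r ≤ 1 / 2 ^ N → 2 ^ (k + 1) * r ≤ φ r := by
    intro k
    have h2 : ∀ᶠ r in 𝓝[>] (0 : ℝ), r / φ r < 1 / 2 ^ (k + 1) :=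
      hlim.eventually (Iio_mem_nhds (by positivity))
    obtain ⟨δ, hδ, h3⟩ := mem_nhdsGT_iff_exists_Ioo_subset.1 h2
    obtain ⟨N, hN⟩ := exists_pow_lt_of_lt_one (show (0 : ℝ) < δ from hδ) (by norm_num : (1 / 2 : ℝ) < 1)
    refine ⟨N, fun r hr hr2 => ?_⟩
    have h4 : r / φ r < 1 / 2 ^ (k + 1) := h3 ⟨hr, lt_of_le_of_lt hr2 (by rwa [one_div_pow] at hN)⟩
    rw [div_lt_div_iff₀ (hpos r hr) (by positivity), one_mul] at h4
    linarith
  choose f hf using h1
  refine ⟨seq f, seq_strictMono f, rfl, seq_sq f, fun k hk r hr hr2 => hf k r hr (hr2.trans ?_)⟩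
  apply one_div_le_one_div_of_le (by positivity)
  exact pow_le_pow_right₀ (by norm_num) (seq_ge f k hk)

section
variable {n : ℕ → ℕ} (hn : StrictMono n) (h0 : n 0 = 0) (hsq : ∀ k, k ^ 2 ≤ n k)

include hn h0 hsq in
lemma ae_weyl (b h : ℕ) (hb : 2 ≤ b) (hh : 1 ≤ h) :
    ∀ᵐ x ∂(mu n), Tendsto (fun N : ℕ => ‖∑ j ∈ Finset.range N, ee (h * (x * (b : ℝ) ^ j))‖ / N)
      atTop (𝓝 0) := by
  have hprob := isProb hn
  refine ae_tendsto (mu n) (SS b h) (continuous_SS b h) ?_ (1 + 56 * h * (b + 1)) (by positivity)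
    ?_ ?_
  · intro N M x hNM
    obtain ⟨d, rfl⟩ := Nat.exists_eq_add_of_le hNM
    unfold SS
    rw [Finset.sum_range_add]
    refine (norm_add_le _ _).trans ?_
    gcongr
    refine (norm_sum_le _ _).trans ?_
    simp only [ee_norm]
    rw [Finset.sum_const, Finset.card_range, nsmul_eq_mul]
    push_cast
    linarith
  · intro N
    refine Integrable.of_bound (C := (N : ℝ) ^ 2)
      ((continuous_SS b h N).norm.pow 2).aestronglyMeasurable (ae_of_all _ fun x => ?_)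
    rw [Real.norm_eq_abs, abs_of_nonneg (by positivity)]
    gcongr
    unfold SS
    refine (norm_sum_le _ _).trans ?_
    simp only [ee_norm]
    rw [Finset.sum_const, Finset.card_range, nsmul_eq_mul, mul_one]
  · intro N
    refine (second_moment hn h0 hsq b hb h hh N).trans ?_
    rcases Nat.eq_zero_or_pos N with rfl | hN
    · simp
    · have hN1 : (1 : ℝ) ≤ N := by exact_mod_cast hN
      have hs1 : (1 : ℝ) ≤ √N := Real.one_le_sqrt.2 hN1
      have hb1 : (1 : ℝ) ≤ b := by exact_mod_cast (by omega : 1 ≤ b)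
      have h2 : (Nat.sqrt (b * N) : ℝ) ≤ b * √N := by
        have h3 : (Nat.sqrt (b * N) : ℝ) ≤ √((b * N : ℕ) : ℝ) := Real.nat_sqrt_le_real_sqrt
        refine h3.trans ?_
        push_cast
        rw [Real.sqrt_mul (by positivity)]
        gcongr
        rw [Real.sqrt_le_left (by positivity)]
        nlinarith
      calc (N : ℝ) * (1 + 56 * h * (Nat.sqrt (b * N) + 1))
          ≤ N * (1 * √N + 56 * h * (b * √N + 1 * √N)) := by gcongr <;> linarith
        _ = _ := by ring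

/-- The condition of absolute normality. -/
def AN : Set ℝ := {x : ℝ | ∀ b : ℕ, 2 ≤ b → ∀ k : ℕ, ∀ w : Fin k → ℤ,
            (∀ j : Fin k, 0 ≤ w j ∧ w j < (b:ℤ)) →
            Tendsto (fun N : ℕ =>
              ((((Finset.range N).filter (fun i : ℕ =>
                ∀ j : Fin k, ⌊x * (b:ℝ) ^ (i + j.val + 1)⌋ % (b:ℤ) = w j)).card : ℝ) / (N:ℝ)))
              atTop (𝓝 (1 / (b:ℝ) ^ k))}

lemma mem_AN (x : ℝ) (hx : ∀ b : ℕ, 2 ≤ b → ∀ h : ℕ, 1 ≤ h →
    Tendsto (fun N : ℕ => ‖∑ j ∈ Finset.range N, ee (h * (x * (b : ℝ) ^ j))‖ / N) atTop (𝓝 0)) :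
    x ∈ AN := by
  intro b hb k w hw
  have h1 := Pool.Agent.H493R3.block_freq b hb x (fun h hh => hx b hb h hh) k
    (fun i => ⟨(w i).toNat, by have := hw i; omega⟩)
  refine h1.congr fun N => ?_
  congr 2
  congr 1
  apply Finset.filter_congr
  intro i _
  apply forall_congr'
  intro j
  have h2 : (((⟨(w j).toNat, by have := hw j; omega⟩ : Fin b) : ℕ) : ℤ) = w j := by
    simp only
    have := hw j
    omega
  rw [h2, show i + 1 + (j : ℕ) = i + (j : ℕ) + 1 by ring]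

include hn h0 hsq in
lemma ae_AN : ∀ᵐ x ∂(mu n), x ∈ AN := by
  have h1 : ∀ᵐ x ∂(mu n), ∀ b h : ℕ, 2 ≤ b → 1 ≤ h →
      Tendsto (fun N : ℕ => ‖∑ j ∈ Finset.range N, ee (h * (x * (b : ℝ) ^ j))‖ / N)
        atTop (𝓝 0) := by
    rw [ae_all_iff]
    intro b
    rw [ae_all_iff]
    intro h
    by_cases hb : 2 ≤ b
    · by_cases hh : 1 ≤ h
      · filter_upwards [ae_weyl hn h0 hsq b h hb hh] with x hx _ _
        exact hx
      · exact ae_of_all _ fun x _ h' => absurd h' hh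
    · exact ae_of_all _ fun x h' => absurd h' hb
  filter_upwards [h1] with x hx
  exact mem_AN x fun b hb h hh => hx b h hb hh

include hn in
lemma ae_KK : ∀ᵐ x ∂(mu n), x ∈ KK n := by
  unfold mu
  have hm : MeasurableSet (KK n) := (isClosed_KK n).measurableSet
  have h1 : ∀ᵐ x ∂(volume.restrict (Ico (0 : ℝ) 1)), TT n x ∈ KK n :=
    (ae_restrict_iff' measurableSet_Ico).2 (ae_of_all _ fun x hx => TT_mem hn x hx)
  exact (ae_map_iff (measurable_TT hn).aemeasurable (p := fun x => x ∈ KK n) hm).2 h1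

include hn h0 in
lemma uniq (c : ℤ → ℂ)
    (hc : ∀ x : ℝ, (∀ m : ℤ, x + (m : ℝ) ∉ KK n) →
      Tendsto (fun N : ℕ => Pool.Agent.Y249.SU.S c N x) atTop (𝓝 0)) (l : ℤ) : c l = 0 := by
  obtain ⟨γ, hγ, hγ0, hz⟩ := Pool.Agent.Y249.SU.exists_gamma
  have hper : ∀ (x : ℝ) (m : ℤ), Pool.Agent.Y249.SU.lam γ (x + m) = Pool.Agent.Y249.SU.lam γ x := by
    intro x m
    unfold Pool.Agent.Y249.SU.lam
    congr 1
    ext j
    have h1 : Pool.Agent.Y249.SU.E j (m : ℝ) = 1 := by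
      rw [Pool.Agent.Y249.SU.E]
      have : (2 * (Real.pi : ℂ) * Complex.I * (j : ℂ) * ((m : ℝ) : ℂ)) =
          ((j * m : ℤ) : ℂ) * (2 * Real.pi * Complex.I) := by
        push_cast
        ring
      rw [this, Complex.exp_int_mul_two_pi_mul_I]
    rw [Pool.Agent.Y249.SU.E_add, h1, mul_one]
  refine Pool.Agent.Y249.SU.uniqueness (K := KK n) (M := fun k => (2 : ℤ) ^ (n k)) ?_ hγ hγ0 ?_
    (a := 1 / 2) (b := 1) (by norm_num) ?_ hc l
  · rw [tendsto_atTop]
    intro C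
    filter_upwards [eventually_ge_atTop C.toNat] with k hk
    have h1 : k ≤ n k := hn.id_le k
    have h2 : n k < 2 ^ (n k) := Nat.lt_two_pow_self
    have h3 : ((2 ^ (n k) : ℕ) : ℤ) = (2 : ℤ) ^ (n k) := by push_cast; rfl
    rw [← h3]
    omega
  · intro x hx k
    have h1 := hx.2 k
    set y : ℝ := ((((2 : ℤ) ^ (n k) : ℤ)) : ℝ) * x with hy
    have h2 : π * (2 ^ (n k + 1) * x) = 2 * π * y := by
      rw [hy, pow_succ]
      push_cast
      ring
    rw [h2] at h1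
    rw [← Int.fract_add_floor y, hper]
    apply hz
    refine ⟨Int.fract_nonneg y, ?_⟩
    by_contra hcon
    push Not at hcon
    have h3 : Real.sin (2 * π * y) = Real.sin (2 * π * Int.fract y) := by
      have : 2 * π * y = 2 * π * Int.fract y + ⌊y⌋ * (2 * π) := by
        conv_lhs => rw [← Int.fract_add_floor y]
        ring
      rw [this, Real.sin_add_int_mul_two_pi]
    have h4 : Real.sin (2 * π * Int.fract y) < 0 := by
      have h5 : Real.sin (2 * π * Int.fract y) = - Real.sin (2 * π * Int.fract y - π) := by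
        rw [Real.sin_sub_pi, neg_neg]
      rw [h5, neg_lt_zero]
      have hπ := Real.pi_pos
      apply Real.sin_pos_of_pos_of_lt_pi
      · nlinarith
      · nlinarith [Int.fract_lt_one y]
    rw [h3] at h1
    linarith
  · intro x hx m hm
    have h1 := hm.2 0
    rw [h0, zero_add, pow_one] at h1
    have h3 : Real.sin (π * (2 * (x + m))) = Real.sin (2 * π * x) := by
      rw [show π * (2 * (x + (m : ℝ))) = 2 * π * x + m * (2 * π) by ring,
        Real.sin_add_int_mul_two_pi]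
    have h4 : Real.sin (2 * π * x) < 0 := by
      have h5 : Real.sin (2 * π * x) = - Real.sin (2 * π * x - π) := by
        rw [Real.sin_sub_pi, neg_neg]
      rw [h5, neg_lt_zero]
      have hπ := Real.pi_pos
      apply Real.sin_pos_of_pos_of_lt_pi
      · nlinarith [hx.1]
      · nlinarith [hx.2]
    rw [h3] at h1
    linarith

end

theorem main (φ : ℝ → ℝ) (hpos : ∀ r : ℝ, 0 < r → 0 < φ r)
    (hc0 : Tendsto φ (𝓝[>] (0 : ℝ)) (𝓝 0))
    (hlim : Tendsto (fun r : ℝ => r / φ r) (𝓝[>] (0 : ℝ)) (𝓝 0)) :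
    ∃ K : Set ℝ, IsClosed K ∧ K ⊆ Set.Icc (0:ℝ) 1 ∧
      (∀ c : ℤ → ℂ,
        (∀ x : ℝ, (∀ m : ℤ, x + (m:ℝ) ∉ K) →
          Tendsto (fun N : ℕ => Pool.Agent.Y249.SU.S c N x) atTop (𝓝 0)) → ∀ n : ℤ, c n = 0) ∧
      0 < MeasureTheory.Measure.mkMetric (fun r : ℝ≥0∞ => ENNReal.ofReal (φ r.toReal)) (K ∩ AN) := by
  obtain ⟨n, hn, h0, hsq, hφ⟩ := exists_seq φ hpos hlim
  refine ⟨KK n, isClosed_KK n, inter_subset_left, uniq hn h0, ?_⟩
  have hprob := isProb hn
  have h1 : mu n (KK n ∩ AN)ᶜ = 0 := by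
    have : ∀ᵐ x ∂(mu n), x ∈ KK n ∩ AN := by
      filter_upwards [ae_KK hn, ae_AN hn h0 hsq] with x h1 h2
      exact ⟨h1, h2⟩
    exact this
  have h2 : 1 ≤ mu n (KK n ∩ AN) := by
    have h3 := measure_univ_le_add_compl (μ := mu n) (KK n ∩ AN)
    rwa [h1, add_zero, measure_univ] at h3
  have h4 := frostman hn hφ hc0 (KK n ∩ AN)
  refine lt_of_lt_of_le ?_ h4
  rw [Measure.smul_apply, smul_eq_mul]
  apply ENNReal.mul_pos (by norm_num)
  exact (lt_of_lt_of_le one_pos h2).ne'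

end Q83.Nrm
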