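import Pool.Agent.Q83.Nrm.Map
import Pool.Agent.H493R3.Digits

/-!
The Fourier transform of the image measure.
-/

set_option autoImplicit false
open MeasureTheory Filter Topology Set
open scoped ENNReal NNReal Real
open Pool.Agent.H493R3 (ee ee_norm ee_add ee_neg ee_int)

namespace Q83.Nrm

lemma continuous_ee : Continuous ee := by
  unfold ee
  fun_prop

lemma di_congr {n : ℕ → ℕ} (hn : StrictMono n) (i k : ℕ) (hik : i ≤ k) (x y : ℝ)
    (h : ⌊(2 : ℝ) ^ (n k + 1) * x⌋ = ⌊(2 : ℝ) ^ (n k + 1) * y⌋) : di n i x = di n i y := by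
  obtain ⟨d, hd⟩ := Nat.exists_eq_add_of_le (hn.monotone hik)
  have h1 : ∀ z : ℝ, (2 : ℝ) ^ (n i + 1) * z = (2 : ℝ) ^ (n k + 1) * z / ((2 ^ d : ℕ) : ℝ) := by
    intro z
    rw [hd]
    push_cast
    rw [pow_succ, pow_succ, pow_add]
    field_simp
  unfold di
  rw [h1, h1, Int.floor_div_natCast, Int.floor_div_natCast, h]

lemma segment (ξ c a b : ℝ) (hξ : ξ ≠ 0) : ‖∫ x in a..b, ee (ξ * (x - c))‖ ≤ 1 / (π * |ξ|) := by
  have hc : (2 * π * ξ * Complex.I : ℂ) ≠ 0 := by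
    have h1 : (ξ : ℂ) ≠ 0 := by exact_mod_cast hξ
    have h2 : (π : ℂ) ≠ 0 := by exact_mod_cast Real.pi_ne_zero
    simp [h1, h2]
  have h1 : ∀ x : ℝ, ee (ξ * (x - c)) = ee (-(ξ * c)) * Complex.exp ((2 * π * ξ * Complex.I : ℂ) * x) := by
    intro x
    unfold ee
    rw [← Complex.exp_add]
    congr 1
    push_cast
    ring
  simp only [h1]
  rw [intervalIntegral.integral_const_mul, integral_exp_mul_complex hc, norm_mul, ee_norm, one_mul,
    norm_div]
  have h2 : ‖(2 * π * ξ * Complex.I : ℂ)‖ = 2 * (π * |ξ|) := by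
    simp [abs_of_pos Real.pi_pos]
    ring
  have h3 : ∀ t : ℝ, ‖Complex.exp ((2 * π * ξ * Complex.I : ℂ) * t)‖ = 1 := by
    intro t
    rw [show (2 * π * ξ * Complex.I : ℂ) * t = ((2 * π * ξ * t : ℝ) : ℂ) * Complex.I by
      push_cast; ring, Complex.norm_exp_ofReal_mul_I]
  have hpos : 0 < π * |ξ| := mul_pos Real.pi_pos (abs_pos.2 hξ)
  rw [h2, div_le_div_iff₀ (by positivity) hpos]
  have h4 := norm_sub_le (Complex.exp ((2 * π * ξ * Complex.I : ℂ) * b))
    (Complex.exp ((2 * π * ξ * Complex.I : ℂ) * a))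
  rw [h3, h3] at h4
  nlinarith

lemma integrable_ee (μ : Measure ℝ) [IsFiniteMeasure μ] (ξ : ℝ) (g : ℝ → ℝ) (hg : Measurable g) :
    Integrable (fun x => ee (ξ * g x)) μ := by
  refine Integrable.of_bound (C := 1) ?_ (ae_of_all _ fun x => (ee_norm _).le)
  exact (continuous_ee.measurable.comp (hg.const_mul ξ)).aestronglyMeasurable

lemma stage {n : ℕ → ℕ} (hn : StrictMono n) (k : ℕ) (ξ : ℝ) (hξ : ξ ≠ 0) :
    ‖∫ x in (0 : ℝ)..1, ee (ξ * Tj n (k + 1) x)‖ ≤ 2 ^ (n k + 1) / (π * |ξ|) := by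
  set Q : ℕ := 2 ^ (n k + 1) with hQ
  have hQ0 : (0 : ℝ) < Q := by rw [hQ]; positivity
  have hint : ∀ a b : ℝ, IntervalIntegrable (fun x => ee (ξ * Tj n (k + 1) x)) volume a b := by
    intro a b
    have h0 : IsFiniteMeasure (volume.restrict (uIoc a b)) := by
      unfold uIoc
      infer_instance
    rw [intervalIntegrable_iff]
    exact integrable_ee _ ξ _ (measurable_Tj n (k + 1))
  have h1 := intervalIntegral.sum_integral_adjacent_intervals (f := fun x => ee (ξ * Tj n (k + 1) x))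
    (μ := volume) (a := fun m : ℕ => (m : ℝ) / Q) (n := Q) (fun m _ => hint _ _)
  have h2 : ((Q : ℕ) : ℝ) / Q = 1 := div_self hQ0.ne'
  rw [h2, Nat.cast_zero, zero_div] at h1
  rw [← h1]
  refine (norm_sum_le _ _).trans ?_
  have h3 : ∀ m ∈ Finset.range Q, ‖∫ x in ((m : ℕ) : ℝ) / Q..((m + 1 : ℕ) : ℝ) / Q,
      ee (ξ * Tj n (k + 1) x)‖ ≤ 1 / (π * |ξ|) := by
    intro m _
    set c : ℝ := ∑ i ∈ Finset.range (k + 1), (di n i ((m : ℝ) / Q) : ℝ) / 2 ^ (n i + 1) with hc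
    have h4 : ∫ x in ((m : ℕ) : ℝ) / Q..((m + 1 : ℕ) : ℝ) / Q, ee (ξ * Tj n (k + 1) x) =
        ∫ x in ((m : ℕ) : ℝ) / Q..((m + 1 : ℕ) : ℝ) / Q, ee (ξ * (x - c)) := by
      apply intervalIntegral.integral_congr_ae
      have h5 : ∀ᵐ x : ℝ, x ≠ ((m + 1 : ℕ) : ℝ) / Q := by
        rw [ae_iff]
        simp
      filter_upwards [h5] with x hx hx2
      have hle : ((m : ℕ) : ℝ) / Q ≤ ((m + 1 : ℕ) : ℝ) / Q := by
        gcongr
        exact_mod_cast Nat.le_succ m
      rw [uIoc_of_le hle] at hx2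
      have h6 : x < ((m + 1 : ℕ) : ℝ) / Q := lt_of_le_of_ne hx2.2 hx
      congr 2
      unfold Tj
      congr 1
      rw [hc]
      apply Finset.sum_congr rfl
      intro i hi
      congr 2
      apply di_congr hn i k (Nat.lt_succ_iff.1 (Finset.mem_range.1 hi))
      have h7 : ((2 : ℝ) ^ (n k + 1)) = (Q : ℝ) := by rw [hQ]; push_cast; rfl
      rw [h7, mul_div_cancel₀ _ hQ0.ne']
      have h8 : ⌊(Q : ℝ) * x⌋ = m := by
        rw [Int.floor_eq_iff]
        constructor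
        · have := hx2.1
          rw [div_lt_iff₀ hQ0] at this
          push_cast
          linarith
        · rw [lt_div_iff₀ hQ0] at h6
          push_cast at h6 ⊢
          linarith
      rw [h8]
      simp
    rw [h4]
    exact segment ξ c _ _ hξ
  refine (Finset.sum_le_sum h3).trans ?_
  rw [Finset.sum_const, Finset.card_range, nsmul_eq_mul, hQ]
  push_cast
  apply le_of_eq
  ring

/-- The measure. -/
noncomputable def mu (n : ℕ → ℕ) : Measure ℝ := (volume.restrict (Ico (0 : ℝ) 1)).map (TT n)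

instance instLeb : IsProbabilityMeasure (volume.restrict (Ico (0 : ℝ) 1)) :=
  ⟨by simp⟩

lemma isProb {n : ℕ → ℕ} (hn : StrictMono n) : IsProbabilityMeasure (mu n) :=
  Measure.isProbabilityMeasure_map (measurable_TT hn).aemeasurable

lemma norm_ee_sub (s t : ℝ) : ‖ee s - ee t‖ ≤ 2 * π * |s - t| := by
  have h1 : ee s - ee t = ee t * (Complex.exp (Complex.I * ((2 * π * (s - t) : ℝ) : ℂ)) - 1) := by
    rw [mul_sub, mul_one]
    congr 1
    unfold ee
    rw [← Complex.exp_add]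
    congr 1
    push_cast
    ring
  rw [h1, norm_mul, ee_norm, one_mul]
  refine (Real.norm_exp_I_mul_ofReal_sub_one_le).trans (le_of_eq ?_)
  rw [Real.norm_eq_abs, abs_mul, abs_of_pos (by positivity)]

theorem fourier_bound {n : ℕ → ℕ} (hn : StrictMono n) (k : ℕ) (ξ : ℝ) (hξ : ξ ≠ 0) :
    ‖∫ x, ee (ξ * x) ∂(mu n)‖ ≤ 2 ^ (n k + 1) / (π * |ξ|) + 2 * π * |ξ| / 2 ^ (n (k + 1)) := by
  unfold mu
  have hcont : Continuous fun x : ℝ => ee (ξ * x) :=
    continuous_ee.comp (continuous_const.mul continuous_id)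
  rw [integral_map (measurable_TT hn).aemeasurable hcont.aestronglyMeasurable]
  have h1 : ∫ x in Ico (0 : ℝ) 1, ee (ξ * Tj n (k + 1) x) = ∫ x in (0 : ℝ)..1, ee (ξ * Tj n (k + 1) x) := by
    rw [intervalIntegral.integral_of_le zero_le_one, integral_Ico_eq_integral_Ioc]
  have h2 := stage hn k ξ hξ
  rw [← h1] at h2
  have h3 : ‖(∫ x in Ico (0 : ℝ) 1, ee (ξ * TT n x)) - ∫ x in Ico (0 : ℝ) 1, ee (ξ * Tj n (k + 1) x)‖ ≤
      2 * π * |ξ| / 2 ^ (n (k + 1)) := by
    rw [← integral_sub (integrable_ee _ ξ _ (measurable_TT hn))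
      (integrable_ee _ ξ _ (measurable_Tj n (k + 1)))]
    have h4 := norm_integral_le_of_norm_le_const (μ := volume.restrict (Ico (0 : ℝ) 1))
      (f := fun x => ee (ξ * TT n x) - ee (ξ * Tj n (k + 1) x))
      (C := 2 * π * |ξ| / 2 ^ (n (k + 1))) (ae_of_all _ fun x => by
        refine (norm_ee_sub _ _).trans ?_
        rw [← mul_sub, abs_mul, ← mul_assoc, div_eq_mul_one_div]
        apply mul_le_mul_of_nonneg_left _ (by positivity)
        rw [abs_le]
        constructor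
        · linarith [le_TT hn (k + 1) x]
        · have h5 := TT_le hn (k + 1) x
          have h6 : (0 : ℝ) ≤ 1 / 2 ^ (n (k + 1)) := by positivity
          linarith)
    simpa using h4
  calc ‖∫ x in Ico (0 : ℝ) 1, ee (ξ * TT n x)‖
      = ‖(∫ x in Ico (0 : ℝ) 1, ee (ξ * Tj n (k + 1) x)) +
          ((∫ x in Ico (0 : ℝ) 1, ee (ξ * TT n x)) -
            ∫ x in Ico (0 : ℝ) 1, ee (ξ * Tj n (k + 1) x))‖ := by rw [add_sub_cancel]
    _ ≤ _ := (norm_add_le _ _).trans (add_le_add h2 h3)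

end Q83.Nrm
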