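import Pool.Agent.Q83.Nrm.Four

/-!
The growth of the measure of intervals.
-/

set_option autoImplicit false
open MeasureTheory Filter Topology Set
open scoped ENNReal NNReal Real

namespace Q83.Nrm

lemma preimage_bound (n : ℕ → ℕ) (j : ℕ) (a b : ℝ) :
    volume {x | Tj n j x ∈ Icc a b} ≤ 2 ^ j * ENNReal.ofReal (b - a) := by
  have hsub : {x | Tj n j x ∈ Icc a b} ⊆ ⋃ A ∈ (Finset.range j).powerset,
      (fun x : ℝ => x - ∑ i ∈ A, (1 : ℝ) / 2 ^ (n i + 1)) ⁻¹' Icc a b := by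
    intro x hx
    rw [mem_iUnion₂]
    refine ⟨(Finset.range j).filter fun i => di n i x = 1,
      Finset.mem_powerset.2 (Finset.filter_subset _ _), ?_⟩
    have h1 : Tj n j x = x - ∑ i ∈ (Finset.range j).filter (fun i => di n i x = 1),
        (1 : ℝ) / 2 ^ (n i + 1) := by
      unfold Tj
      congr 1
      rw [Finset.sum_filter]
      apply Finset.sum_congr rfl
      intro i _
      rcases di_cases n i x with h | h <;> simp [h]
    rw [mem_preimage, ← h1]
    exact hx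
  refine (measure_mono hsub).trans ((measure_biUnion_finset_le _ _).trans ?_)
  have h2 : ∀ A ∈ (Finset.range j).powerset,
      volume ((fun x : ℝ => x - ∑ i ∈ A, (1 : ℝ) / 2 ^ (n i + 1)) ⁻¹' Icc a b) ≤
        ENNReal.ofReal (b - a) := by
    intro A _
    rw [preimage_sub_const_Icc, Real.volume_Icc]
    apply ENNReal.ofReal_le_ofReal
    linarith
  refine (Finset.sum_le_sum h2).trans ?_
  rw [Finset.sum_const, Finset.card_powerset, Finset.card_range, nsmul_eq_mul]
  push_cast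
  exact le_rfl

lemma mu_Icc {n : ℕ → ℕ} (hn : StrictMono n) (k : ℕ) (a b : ℝ) :
    mu n (Icc a b) ≤ 2 ^ k * ENNReal.ofReal (b - a + 1 / 2 ^ (n k)) := by
  unfold mu
  rw [Measure.map_apply (measurable_TT hn) measurableSet_Icc]
  refine (Measure.restrict_apply_le _ _).trans ?_
  refine le_trans (measure_mono (t := {x | Tj n k x ∈ Icc a (b + 1 / 2 ^ (n k))}) ?_) ?_
  · intro x hx
    rw [mem_preimage] at hx
    exact ⟨hx.1.trans (TT_le hn k x), by linarith [le_TT hn k x, hx.2]⟩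
  · refine (preimage_bound n k _ _).trans (le_of_eq ?_)
    congr 2
    ring

variable {n : ℕ → ℕ} (hn : StrictMono n) {φ : ℝ → ℝ}
  (hφ : ∀ k, 1 ≤ k → ∀ r : ℝ, 0 < r → r ≤ 1 / 2 ^ (n k) → 2 ^ (k + 1) * r ≤ φ r)

include hn hφ in
lemma mu_ball (p r : ℝ) (hr : 0 < r) (hr1 : r < 1 / 2 ^ (n 1)) :
    mu n (Icc (p - r) (p + r)) ≤ 3 * ENNReal.ofReal (φ r) := by
  have hex : ∃ k, (1 : ℝ) / 2 ^ (n (k + 1)) ≤ r := by
    obtain ⟨k, hk⟩ := exists_pow_lt_of_lt_one hr (by norm_num : (1 / 2 : ℝ) < 1)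
    refine ⟨k, le_trans ?_ hk.le⟩
    rw [one_div_pow]
    apply one_div_le_one_div_of_le (by positivity)
    apply pow_le_pow_right₀ (by norm_num)
    have := hn.id_le (k + 1)
    simp only [id] at this
    omega
  classical
  set k := Nat.find hex with hk
  have hk1 : (1 : ℝ) / 2 ^ (n (k + 1)) ≤ r := Nat.find_spec hex
  have hk0 : k ≠ 0 := by
    intro h
    rw [h, zero_add] at hk1
    exact absurd hr1 (not_lt.2 hk1)
  have hk2 : r < (1 : ℝ) / 2 ^ (n k) := by
    obtain ⟨l, hl⟩ := Nat.exists_eq_succ_of_ne_zero hk0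
    have := Nat.find_min hex (m := l) (by omega)
    rw [not_le] at this
    rwa [hl]
  refine (mu_Icc hn (k + 1) _ _).trans ?_
  have h1 : ENNReal.ofReal (p + r - (p - r) + 1 / 2 ^ (n (k + 1))) ≤ ENNReal.ofReal (3 * r) := by
    apply ENNReal.ofReal_le_ofReal
    linarith
  calc 2 ^ (k + 1) * ENNReal.ofReal (p + r - (p - r) + 1 / 2 ^ (n (k + 1)))
      ≤ 2 ^ (k + 1) * ENNReal.ofReal (3 * r) := by gcongr
    _ = 3 * ENNReal.ofReal (2 ^ (k + 1) * r) := by
      rw [ENNReal.ofReal_mul (by norm_num), ENNReal.ofReal_mul (by positivity),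
        ENNReal.ofReal_pow (by norm_num)]
      simp only [ENNReal.ofReal_ofNat]
      ring
    _ ≤ 3 * ENNReal.ofReal (φ r) := by
      gcongr
      exact hφ k (Nat.one_le_iff_ne_zero.2 hk0) r hr hk2.le

include hn hφ in
theorem frostman (h0 : Tendsto φ (𝓝[>] (0 : ℝ)) (𝓝 0)) :
    (3 : ℝ≥0∞)⁻¹ • mu n ≤ Measure.mkMetric (fun r : ℝ≥0∞ => ENNReal.ofReal (φ r.toReal)) := by
  have key : ∀ μs c : ℝ≥0∞, μs ≤ 3 * c → (3 : ℝ≥0∞)⁻¹ * μs ≤ c := by
    intro μs c h
    calc (3 : ℝ≥0∞)⁻¹ * μs ≤ (3 : ℝ≥0∞)⁻¹ * (3 * c) := by gcongr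
      _ = c := by
        rw [← mul_assoc, ENNReal.inv_mul_cancel (by norm_num) (by norm_num), one_mul]
  have hpos : (0 : ℝ) < 1 / 2 ^ (n 1) := by positivity
  apply Measure.le_mkMetric _ _ (ENNReal.ofReal (1 / 2 ^ (n 1) / 2))
    (ENNReal.ofReal_pos.2 (by positivity))
  intro s hs
  rw [Measure.smul_apply, smul_eq_mul]
  rcases s.eq_empty_or_nonempty with rfl | ⟨p, hp⟩
  · simp
  have hfin : Metric.ediam s ≠ ⊤ := ne_top_of_le_ne_top ENNReal.ofReal_ne_top hs
  set d : ℝ := (Metric.ediam s).toReal with hd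
  have hd1 : d < 1 / 2 ^ (n 1) := by
    have := (ENNReal.toReal_le_toReal hfin ENNReal.ofReal_ne_top).2 hs
    rw [ENNReal.toReal_ofReal (by positivity)] at this
    linarith
  have hd0 : 0 ≤ d := ENNReal.toReal_nonneg
  have hsub : ∀ r, d ≤ r → s ⊆ Icc (p - r) (p + r) := by
    intro r hr x hx
    have h1 : edist x p ≤ Metric.ediam s := Metric.edist_le_ediam_of_mem hx hp
    have h2 : dist x p ≤ d := by
      rw [hd, ← ENNReal.ofReal_le_iff_le_toReal hfin, ← edist_dist]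
      exact h1
    rw [Real.dist_eq, abs_le] at h2
    constructor <;> linarith
  rcases hd0.eq_or_lt with h | h
  · -- diameter zero
    have hz : mu n s = 0 := by
      have h1 : Tendsto (fun r : ℝ => 3 * ENNReal.ofReal (φ r)) (𝓝[>] 0) (𝓝 0) := by
        have h2 := ENNReal.tendsto_ofReal h0
        rw [ENNReal.ofReal_zero] at h2
        have h3 := ENNReal.Tendsto.const_mul h2 (Or.inr (by norm_num : (3 : ℝ≥0∞) ≠ ⊤))
        rwa [mul_zero] at h3
      apply le_antisymm _ zero_le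
      apply ge_of_tendsto h1
      have h4 : ∀ᶠ r in 𝓝[>] (0 : ℝ), r < 1 / 2 ^ (n 1) :=
        nhdsWithin_le_nhds (Iio_mem_nhds hpos)
      filter_upwards [self_mem_nhdsWithin, h4] with r hr hr2
      exact (measure_mono (hsub r (by rw [← h]; exact (show (0 : ℝ) < r from hr).le))).trans
        (mu_ball hn hφ p r hr hr2)
    rw [hz, mul_zero]
    exact zero_le
  · exact key _ _ ((measure_mono (hsub d le_rfl)).trans (mu_ball hn hφ p d h hd1))

end Q83.Nrm
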