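import Mathlib

/-!
The map that replaces the binary digits at the positions `n i + 1` by zero.
-/

set_option autoImplicit false
open MeasureTheory Filter Topology Set
open scoped ENNReal NNReal Real

namespace Q83.Nrm

variable (n : ℕ → ℕ)

/-- The binary digit at the position `n i + 1`. -/
noncomputable def di (i : ℕ) (x : ℝ) : ℤ := ⌊(2 : ℝ) ^ (n i + 1) * x⌋ % 2

lemma di_cases (i : ℕ) (x : ℝ) : di n i x = 0 ∨ di n i x = 1 := by
  unfold di
  omega

lemma di_nonneg (i : ℕ) (x : ℝ) : (0 : ℝ) ≤ di n i x := by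
  rcases di_cases n i x with h | h <;> rw [h] <;> norm_num

lemma di_le_one (i : ℕ) (x : ℝ) : (di n i x : ℝ) ≤ 1 := by
  rcases di_cases n i x with h | h <;> rw [h] <;> norm_num

lemma measurable_di (i : ℕ) : Measurable (di n i) := by
  unfold di
  have h1 : Measurable fun z : ℤ => z % 2 := Measurable.of_discrete
  exact h1.comp (Int.measurable_floor.comp (measurable_id.const_mul _))

/-- The map that clears the first `j` digits. -/
noncomputable def Tj (j : ℕ) (x : ℝ) : ℝ :=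
  x - ∑ i ∈ Finset.range j, (di n i x : ℝ) / 2 ^ (n i + 1)

lemma Tj_zero (x : ℝ) : Tj n 0 x = x := by
  simp [Tj]

lemma Tj_succ (j : ℕ) (x : ℝ) : Tj n (j + 1) x = Tj n j x - (di n j x : ℝ) / 2 ^ (n j + 1) := by
  unfold Tj
  rw [Finset.sum_range_succ]
  ring

lemma measurable_Tj (j : ℕ) : Measurable (Tj n j) := by
  unfold Tj
  apply measurable_id.sub
  apply Finset.measurable_sum
  intro i _
  have h1 : Measurable fun z : ℤ => (z : ℝ) := Measurable.of_discrete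
  exact (h1.comp (measurable_di n i)).div_const _

lemma antitone_Tj (x : ℝ) : Antitone fun j => Tj n j x := by
  apply antitone_nat_of_succ_le
  intro j
  rw [Tj_succ]
  have := di_nonneg n j x
  have : 0 ≤ (di n j x : ℝ) / 2 ^ (n j + 1) := by positivity
  linarith

section
variable {n} (hn : StrictMono n)
include hn

lemma two_pow_succ (j : ℕ) : (2 : ℝ) ^ (n j + 1) ≤ 2 ^ (n (j + 1)) := by
  apply pow_le_pow_right₀ (by norm_num)
  exact hn (Nat.lt_succ_self j)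

lemma Tj_sub_le (x : ℝ) (k j : ℕ) (h : k ≤ j) :
    Tj n k x - Tj n j x ≤ 1 / 2 ^ (n k) - 1 / 2 ^ (n j) := by
  induction j, h using Nat.le_induction with
  | base => simp
  | succ j _ ih =>
    rw [Tj_succ]
    have h1 := di_le_one n j x
    have h2 : (di n j x : ℝ) / 2 ^ (n j + 1) ≤ 1 / 2 ^ (n j + 1) := by gcongr
    have h3 : (1 : ℝ) / 2 ^ (n (j + 1)) ≤ 1 / 2 ^ (n j + 1) :=
      one_div_le_one_div_of_le (by positivity) (two_pow_succ hn j)
    have h4 : (1 : ℝ) / 2 ^ (n j) = 1 / 2 ^ (n j + 1) + 1 / 2 ^ (n j + 1) := by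
      rw [pow_succ]
      field_simp
      norm_num
    linarith

lemma le_Tj (x : ℝ) (k j : ℕ) : Tj n k x - 1 / 2 ^ (n k) ≤ Tj n j x := by
  rcases le_total k j with h | h
  · have h1 := Tj_sub_le hn x k j h
    have h2 : (0 : ℝ) ≤ 1 / 2 ^ (n j) := by positivity
    linarith
  · have h1 := antitone_Tj n x h
    have h2 : (0 : ℝ) ≤ 1 / 2 ^ (n k) := by positivity
    simp only at h1
    linarith

lemma bddBelow_Tj (x : ℝ) : BddBelow (range fun j => Tj n j x) :=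
  ⟨Tj n 0 x - 1 / 2 ^ (n 0), by
    rintro _ ⟨j, rfl⟩
    exact le_Tj hn x 0 j⟩

end

/-- The map that clears all the digits. -/
noncomputable def TT (x : ℝ) : ℝ := ⨅ j, Tj n j x

lemma measurable_TT {n : ℕ → ℕ} (hn : StrictMono n) : Measurable (TT n) :=
  measurable_of_tendsto_metrizable (measurable_Tj n) (tendsto_pi_nhds.2 fun x =>
    tendsto_atTop_ciInf (antitone_Tj n x) (bddBelow_Tj hn x))

lemma TT_le {n : ℕ → ℕ} (hn : StrictMono n) (k : ℕ) (x : ℝ) : TT n x ≤ Tj n k x :=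
  ciInf_le (bddBelow_Tj hn x) k

lemma le_TT {n : ℕ → ℕ} (hn : StrictMono n) (k : ℕ) (x : ℝ) : Tj n k x - 1 / 2 ^ (n k) ≤ TT n x :=
  le_ciInf fun j => le_Tj hn x k j

/-- The approximation from below. -/
noncomputable def ap (k : ℕ) (x : ℝ) : ℝ := (⌊(2 : ℝ) ^ (n k + 1) * x⌋ : ℝ) / 2 ^ (n k + 1)

lemma ap_le (k : ℕ) (x : ℝ) : ap n k x ≤ x := by
  unfold ap
  rw [div_le_iff₀ (by positivity), mul_comm]
  exact Int.floor_le _

lemma lt_ap (k : ℕ) (x : ℝ) : x < ap n k x + 1 / 2 ^ (n k + 1) := by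
  unfold ap
  rw [← add_div, lt_div_iff₀ (by positivity), mul_comm]
  exact Int.lt_floor_add_one _

lemma ap_step {n : ℕ → ℕ} (hn : StrictMono n) (j : ℕ) (x : ℝ) :
    ap n j x + (di n (j + 1) x : ℝ) / 2 ^ (n (j + 1) + 1) ≤ ap n (j + 1) x := by
  have h1 : n j + 1 ≤ n (j + 1) := hn (Nat.lt_succ_self j)
  obtain ⟨d, hd⟩ := Nat.exists_eq_add_of_le h1
  have h2 : (2 : ℝ) ^ (n (j + 1) + 1) = 2 ^ (n j + 1) * 2 ^ (d + 1) := by
    rw [← pow_add, hd]
    congr 1
  have h3 : 2 * (2 ^ d * ⌊(2 : ℝ) ^ (n j + 1) * x⌋) ≤ ⌊(2 : ℝ) ^ (n (j + 1) + 1) * x⌋ := by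
    apply Int.le_floor.2
    push_cast
    rw [h2]
    have h4 := Int.floor_le ((2 : ℝ) ^ (n j + 1) * x)
    calc 2 * ((2 : ℝ) ^ d * (⌊(2 : ℝ) ^ (n j + 1) * x⌋ : ℝ)) ≤ 2 * (2 ^ d * (2 ^ (n j + 1) * x)) := by
          gcongr
      _ = _ := by ring
  have h5 : 2 * (2 ^ d * ⌊(2 : ℝ) ^ (n j + 1) * x⌋) + di n (j + 1) x ≤
      ⌊(2 : ℝ) ^ (n (j + 1) + 1) * x⌋ := by
    unfold di
    omega
  have h6 : (2 : ℝ) * (2 ^ d * (⌊(2 : ℝ) ^ (n j + 1) * x⌋ : ℝ)) + (di n (j + 1) x : ℝ) ≤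
      (⌊(2 : ℝ) ^ (n (j + 1) + 1) * x⌋ : ℝ) := by exact_mod_cast h5
  unfold ap
  rw [← div_le_div_iff_of_pos_right (by positivity : (0 : ℝ) < 2 ^ (n (j + 1) + 1))] at h6
  refine le_trans (le_of_eq ?_) h6
  rw [add_div, h2]
  congr 1
  field_simp
  ring

lemma ap_le_TT {n : ℕ → ℕ} (hn : StrictMono n) (k : ℕ) (x : ℝ) :
    ap n k x - ∑ i ∈ Finset.range (k + 1), (di n i x : ℝ) / 2 ^ (n i + 1) ≤ TT n x := by
  have key : ∀ j, k ≤ j →
      ap n k x - ∑ i ∈ Finset.range (k + 1), (di n i x : ℝ) / 2 ^ (n i + 1) ≤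
        ap n j x - ∑ i ∈ Finset.range (j + 1), (di n i x : ℝ) / 2 ^ (n i + 1) := by
    intro j hj
    induction j, hj using Nat.le_induction with
    | base => exact le_rfl
    | succ j _ ih =>
      rw [Finset.sum_range_succ _ (j + 1)]
      have := ap_step hn j x
      linarith
  apply le_ciInf
  intro j
  rcases le_total (k + 1) j with h | h
  · obtain ⟨d, rfl⟩ := Nat.exists_eq_add_of_le h
    have h1 := key (k + d) (by omega)
    have h2 := ap_le n (k + d) x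
    unfold Tj
    rw [show k + 1 + d = k + d + 1 by ring]
    linarith
  · have h1 := antitone_Tj n x h
    simp only at h1
    have h2 := ap_le n k x
    refine le_trans ?_ h1
    unfold Tj
    linarith

lemma mem_even {n : ℕ → ℕ} (hn : StrictMono n) (k : ℕ) (x : ℝ) : ∃ m : ℤ,
    (2 * m : ℝ) ≤ 2 ^ (n k + 1) * TT n x ∧ 2 ^ (n k + 1) * TT n x ≤ 2 * m + 1 := by
  -- the even integer
  have hint : ∀ i ∈ Finset.range k, ∃ z : ℤ,
      (2 : ℝ) ^ (n k + 1) * ((di n i x : ℝ) / 2 ^ (n i + 1)) = 2 * z := by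
    intro i hi
    have h1 : n i + 1 ≤ n k := hn (Finset.mem_range.1 hi)
    obtain ⟨d, hd⟩ := Nat.exists_eq_add_of_le h1
    refine ⟨2 ^ d * di n i x, ?_⟩
    rw [hd]
    push_cast
    rw [pow_succ, pow_add]
    field_simp
  have hsum : ∃ z : ℤ, (2 : ℝ) ^ (n k + 1) *
      ∑ i ∈ Finset.range k, (di n i x : ℝ) / 2 ^ (n i + 1) = 2 * z := by
    rw [Finset.mul_sum]
    choose! z hz using hint
    refine ⟨∑ i ∈ Finset.range k, z i, ?_⟩
    rw [Finset.sum_congr rfl hz, ← Finset.mul_sum]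
    push_cast
    rfl
  obtain ⟨z, hz⟩ := hsum
  have hP : (0 : ℝ) < 2 ^ (n k + 1) := by positivity
  set F : ℤ := ⌊(2 : ℝ) ^ (n k + 1) * x⌋ with hF
  have hFd : F = 2 * (F / 2) + di n k x := by
    unfold di
    rw [← hF]
    omega
  have hFd' : (F : ℝ) = 2 * ((F / 2 : ℤ) : ℝ) + di n k x := by exact_mod_cast hFd
  refine ⟨F / 2 - z, ?_, ?_⟩
  · have h1 := ap_le_TT hn k x
    rw [Finset.sum_range_succ] at h1
    have h2 := mul_le_mul_of_nonneg_left h1 hP.le
    rw [mul_sub, mul_add, hz] at h2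
    unfold ap at h2
    rw [← hF, mul_div_cancel₀ _ hP.ne', mul_div_cancel₀ _ hP.ne'] at h2
    push_cast
    linarith
  · have h1 := TT_le hn (k + 1) x
    unfold Tj at h1
    rw [Finset.sum_range_succ] at h1
    have h2 := mul_le_mul_of_nonneg_left h1 hP.le
    rw [mul_sub, mul_add, hz, mul_div_cancel₀ _ hP.ne'] at h2
    have h3 := Int.lt_floor_add_one ((2 : ℝ) ^ (n k + 1) * x)
    rw [← hF] at h3
    push_cast
    linarith

/-- The closed set. -/
def KK : Set ℝ := Icc 0 1 ∩ {x | ∀ k, 0 ≤ Real.sin (π * (2 ^ (n k + 1) * x))}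

lemma isClosed_KK : IsClosed (KK n) := by
  apply isClosed_Icc.inter
  rw [ofPred_forall]
  apply isClosed_iInter
  intro k
  exact isClosed_le continuous_const (by fun_prop)

lemma TT_mem {n : ℕ → ℕ} (hn : StrictMono n) (x : ℝ) (hx : x ∈ Ico (0 : ℝ) 1) : TT n x ∈ KK n := by
  refine ⟨⟨?_, ?_⟩, ?_⟩
  · have h1 := ap_le_TT hn 0 x
    refine le_trans ?_ h1
    rw [zero_add, Finset.sum_range_one, ap, ← sub_div]
    apply div_nonneg _ (by positivity)
    rw [sub_nonneg]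
    have h2 : 0 ≤ ⌊(2 : ℝ) ^ (n 0 + 1) * x⌋ := Int.floor_nonneg.2 (mul_nonneg (by positivity) hx.1)
    have h3 : di n 0 x ≤ ⌊(2 : ℝ) ^ (n 0 + 1) * x⌋ := by
      unfold di
      omega
    exact_mod_cast h3
  · have h1 := TT_le hn 0 x
    rw [Tj_zero] at h1
    linarith [hx.2]
  · intro k
    obtain ⟨m, h1, h2⟩ := mem_even hn k x
    have h3 : Real.sin (π * (2 ^ (n k + 1) * TT n x)) =
        Real.sin (π * (2 ^ (n k + 1) * TT n x - 2 * m)) := by
      rw [mul_sub, show π * (2 * (m : ℝ)) = m * (2 * π) by ring, Real.sin_sub_int_mul_two_pi]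
    rw [h3]
    apply Real.sin_nonneg_of_nonneg_of_le_pi
    · apply mul_nonneg Real.pi_pos.le
      linarith
    · have := Real.pi_pos
      nlinarith

end Q83.Nrm
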